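import Pool.Agent.W580.SH.StmB

/-! Project SH, part KEY: from minors to barycentric coordinates. -/

namespace Pool.Agent.W315.SHKey

open Finset Pool.Agent.W580.SH

/-- the elementary matrix -/
noncomputable def FF {k : ℕ} (O : Fin k → ℝ) : Matrix (Fin (k + 1)) (Fin (k + 1)) ℝ :=
  Matrix.of (Fin.cons (Fin.cons 1 (fun _ => 0))
    (fun b => Fin.cons (O b) (fun b' => if b = b' then -1 else 0)))

theorem FF_mul {k : ℕ} (O : Fin k → ℝ) : FF O * FF O = 1 := by
  ext a b
  rw [Matrix.mul_apply, Fin.sum_univ_succ]
  refine Fin.cases ?_ (fun a => ?_) a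
  · refine Fin.cases ?_ (fun b => ?_) b
    · simp [FF]
    · rw [Matrix.one_apply_ne (Fin.succ_ne_zero b).symm]
      simp [FF]
  · refine Fin.cases ?_ (fun b => ?_) b
    · simp [FF, Finset.sum_ite_eq]
    · simp only [FF, Matrix.of_apply, Fin.cons_succ, Fin.cons_zero, mul_zero, zero_add, ite_mul,
        neg_mul, one_mul, zero_mul]
      rw [Finset.sum_ite_eq]
      simp only [Finset.mem_univ, if_true, Matrix.one_apply, Fin.succ_inj]
      split_ifs <;> simp

theorem abs_det_FF {k : ℕ} (O : Fin k → ℝ) : |(FF O).det| = 1 := by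
  have h : (FF O).det * (FF O).det = 1 := by
    rw [← Matrix.det_mul, FF_mul, Matrix.det_one]
  have h2 : |(FF O).det| * |(FF O).det| = 1 := by
    rw [← abs_mul, h, abs_one]
  nlinarith [abs_nonneg (FF O).det]

theorem det_key {k : ℕ} (O : Fin k → ℝ) (N : Matrix (Fin (k + 1)) (Fin (k + 1)) ℝ)
    (hN0 : ∀ j, N 0 j = 1) (hdet : N.det ≠ 0) (c w : Fin (k + 1) → ℝ)
    (hw0 : ∑ j, w j = 1) (hw : ∀ b : Fin k, ∑ j, w j * N b.succ j = O b) :
    |(Matrix.of (Fin.cons c (fun b j => O b - N (Fin.succ b) j)) :
      Matrix (Fin (k + 1)) (Fin (k + 1)) ℝ).det| = |N.det| * |∑ j, c j * w j| := by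
  have hu : IsUnit N.det := isUnit_iff_ne_zero.2 hdet
  set γ : Fin (k + 1) → ℝ := Matrix.vecMul c N⁻¹ with hγ
  have hγN : Matrix.vecMul γ N = c := by
    rw [hγ, Matrix.vecMul_vecMul, Matrix.nonsing_inv_mul N hu, Matrix.vecMul_one]
  have hNw : Matrix.mulVec N w = Fin.cons 1 O := by
    funext a
    refine Fin.cases ?_ (fun a => ?_) a
    · simp [Matrix.mulVec, dotProduct, hN0, hw0]
    · simp only [Matrix.mulVec, dotProduct, Fin.cons_succ]
      rw [← hw a]
      exact Finset.sum_congr rfl (fun j _ => mul_comm _ _)
  have hM : (Matrix.of (Fin.cons c (fun b j => O b - N (Fin.succ b) j)) :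
      Matrix (Fin (k + 1)) (Fin (k + 1)) ℝ) = (Matrix.updateRow (FF O) 0 γ) * N := by
    ext a j
    rw [Matrix.mul_apply]
    refine Fin.cases ?_ (fun a => ?_) a
    · simp only [Matrix.of_apply, Fin.cons_zero, Matrix.updateRow_self]
      rw [← congrFun hγN j]
      rfl
    · simp only [Matrix.of_apply, Fin.cons_succ]
      rw [Fin.sum_univ_succ]
      simp only [Matrix.updateRow_ne (Fin.succ_ne_zero a), FF, Matrix.of_apply, Fin.cons_succ,
        Fin.cons_zero, hN0, mul_one, ite_mul, neg_mul, one_mul, zero_mul]
      rw [Finset.sum_ite_eq]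
      simp only [Finset.mem_univ, if_true]
      ring
  have hG : (Matrix.updateRow (FF O) 0 γ) * FF O =
      Matrix.updateRow 1 0 (Matrix.vecMul γ (FF O)) := by
    ext a j
    rw [Matrix.mul_apply]
    refine Fin.cases ?_ (fun a => ?_) a
    · simp only [Matrix.updateRow_self]
      rfl
    · simp only [Matrix.updateRow_ne (Fin.succ_ne_zero a)]
      rw [← Matrix.mul_apply, FF_mul]
  have hdG : (Matrix.updateRow (FF O) 0 γ).det * (FF O).det = ∑ j, c j * w j := by
    rw [← Matrix.det_mul, hG, ← Matrix.cramer_transpose_apply, Matrix.transpose_one,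
      Matrix.cramer_one]
    have e1 : (Matrix.vecMul γ (FF O)) 0 = dotProduct γ (Fin.cons 1 O) := by
      simp only [Matrix.vecMul, dotProduct]
      apply Finset.sum_congr rfl
      intro a _
      congr 1
      refine Fin.cases ?_ (fun a => ?_) a
      · simp [FF]
      · simp [FF]
    show (Matrix.vecMul γ (FF O)) 0 = _
    rw [e1, ← hNw, Matrix.dotProduct_mulVec, hγN]
    rfl
  rw [hM, Matrix.det_mul, abs_mul]
  have h2 : |(Matrix.updateRow (FF O) 0 γ).det| = |∑ j, c j * w j| := by
    rw [← hdG, abs_mul, abs_det_FF, mul_one]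
  rw [h2, mul_comm]

theorem main : S_KEY := by
  intro R _ _ I S t i θ D hTS hsupp ht htI hval hiI hti hθ0 hθ1 hD
  classical
  have memD : ∀ z, z ∈ D ↔ z ∈ DSet (S : Set (R → ℝ)) i θ := by
    intro z
    rw [← hD]
    simp
  have hDi : ∀ z ∈ D, z i = 0 := fun z hz => ((memD z).1 hz).1
  have hDS1 : ∀ z ∈ D, Function.update z i θ ∈ S := fun z hz => ((memD z).1 hz).2.1
  have hDS2 : ∀ z ∈ D, Function.update z i (θ - 1) ∈ S := fun z hz => ((memD z).1 hz).2.2
  -- entries are bounded
  have hent : ∀ x ∈ S, ∀ r, |x r| ≤ 1 := by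
    intro x hx r
    have := hTS 1 ![r] ![x] (by intro j; fin_cases j; simpa using hx)
    simpa [mn] using this
  -- no two opposite values
  have hopp : ∀ z ∈ D, ∀ z' ∈ D, ∀ r, r ≠ i → z r = 1 → z' r = -1 → False := by
    intro z hz z' hz' r hr h1 h2
    have := hTS 2 ![i, r] ![Function.update z i (θ - 1), Function.update z' i (θ - 1)] (by
      intro j
      fin_cases j
      · simpa using hDS2 z hz
      · simpa using hDS2 z' hz')
    simp only [mn, Matrix.det_fin_two, Matrix.of_apply, Matrix.cons_val_zero, Matrix.cons_val_one,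
      Function.update_self, Function.update_of_ne hr, h1, h2] at this
    rw [abs_le] at this
    linarith [this.1, this.2]
  -- signs
  obtain ⟨ε, hε⟩ : ∃ ε : R → ℝ, ∀ r, ε r =
      if t r = 0 ∧ r ≠ i ∧ ∃ z ∈ D, z r = 1 then -1 else 1 := ⟨_, fun r => rfl⟩
  have hε1 : ∀ r, ε r = 1 ∨ ε r = -1 := by
    intro r
    rw [hε r]
    split_ifs
    · right; rfl
    · left; rfl
  set O : R → ℝ := Function.update t i 0 with hO
  have hrep : ∀ z ∈ D, ∀ r, z r = ε r * O r ∨ z r = ε r * (O r - 1) := by
    intro z hz r
    by_cases hri : r = i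
    · subst hri
      left
      rw [hDi z hz, hO, Function.update_self, mul_zero]
    · have hOr : O r = t r := by rw [hO, Function.update_of_ne hri]
      have hzr : (Function.update z i θ) r = z r := Function.update_of_ne hri _ _
      have hv := hval _ (hDS1 z hz) r
      rw [hzr] at hv
      rw [hOr]
      rcases (ht r).1.lt_or_eq with hpos | h0
      · have he : ε r = 1 := by
          rw [hε r, if_neg]
          rintro ⟨h, _⟩
          linarith
        rw [he, one_mul, one_mul]
        exact hv.2 hpos
      · obtain ⟨n, hn⟩ := hv.1 h0.symm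
        have hb := hent _ (hDS1 z hz) r
        rw [hzr, hn] at hb
        have hb' : |n| ≤ 1 := by exact_mod_cast hb
        rw [abs_le] at hb'
        rw [← h0]
        have h3 : n = -1 ∨ n = 0 ∨ n = 1 := by omega
        rcases h3 with h3 | h3 | h3
        · right
          have he : ε r = 1 := by
            rw [hε r, if_neg]
            rintro ⟨_, _, z', hz', h1⟩
            exact hopp z' hz' z hz r hri h1 (by rw [hn, h3]; simp)
          rw [he, hn, h3]
          norm_num
        · left
          rw [hn, h3]
          simp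
        · right
          have he : ε r = -1 := by
            rw [hε r, if_pos]
            exact ⟨h0.symm, hri, z, hz, by rw [hn, h3]; simp⟩
          rw [he, hn, h3]
          norm_num
  -- the 0/1 vectors
  obtain ⟨av, hav⟩ : ∃ av : (R → ℝ) → (R → ℤ), ∀ z r, av z r =
      if z r = ε r * O r then 0 else 1 := ⟨_, fun z r => rfl⟩
  have hbin : ∀ z r, av z r = 0 ∨ av z r = 1 := by
    intro z r
    rw [hav z r]
    split_ifs
    · left; rfl
    · right; rfl
  have hz : ∀ z ∈ D, ∀ r, z r = ε r * (O r - (av z r : ℤ)) := by
    intro z hz r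
    rw [hav z r]
    split_ifs with h
    · rw [h]
      simp
    · rcases hrep z hz r with h' | h'
      · exact absurd h' h
      · rw [h']
        simp
  have hinj : Set.InjOn av (D : Set (R → ℝ)) := by
    intro z hz1 z' hz2 h
    funext r
    rw [hz z (by simpa using hz1) r, hz z' (by simpa using hz2) r, h]
  refine ⟨D.image av, Finset.card_image_of_injOn hinj, ?_, ?_, ?_⟩
  · intro a ha r
    obtain ⟨z, _, rfl⟩ := Finset.mem_image.1 ha
    exact hbin z r
  · intro a ha r hr
    obtain ⟨z, hzD, rfl⟩ := Finset.mem_image.1 ha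
    rw [hav z r, if_pos]
    by_cases hri : r = i
    · subst hri
      rw [hDi z hzD, hO, Function.update_self, mul_zero]
    · have hrI : r ∉ I := fun h => hr (Finset.mem_erase.2 ⟨hri, h⟩)
      have h1 := hsupp _ (hDS1 z hzD) r hrI
      rw [Function.update_of_ne hri] at h1
      rw [h1, hO, Function.update_of_ne hri, htI r hrI, mul_zero]
  · intro k r p hp
    have hch : ∀ j, ∃ z ∈ D, av z = p j := by
      intro j
      have := hp j
      simpa using this
    choose z hzD hzp using hch
    -- the real matrix
    set N : Matrix (Fin (k + 1)) (Fin (k + 1)) ℝ := (oneMat r p).map (Int.cast : ℤ → ℝ) with hN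
    have hNdet : N.det = (((oneMat r p).det : ℤ) : ℝ) := by
      rw [hN]
      exact (RingHom.map_det (Int.castRingHom ℝ) (oneMat r p)).symm
    by_cases hri : ∃ b, r b = i
    · obtain ⟨b, hb⟩ := hri
      have h0 : (oneMat r p).det = 0 := by
        apply Matrix.det_eq_zero_of_row_eq_zero b.succ
        intro j
        have e1 : oneMat r p b.succ j = p j (r b) := by
          simp [oneMat]
        rw [e1, hb, ← hzp j, hav, if_pos]
        rw [hDi _ (hzD j), hO, Function.update_self, mul_zero]
      constructor
      · rw [h0]; simp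
      · intro h; exact absurd h0 h
    · push Not at hri
      have hNsucc : ∀ (b : Fin k) j, N b.succ j = ((p j (r b) : ℤ) : ℝ) := by
        intro b j
        simp [hN, oneMat]
      have hN0 : ∀ j, N 0 j = 1 := by
        intro j
        simp [hN, oneMat]
      -- the inequality
      have hineq : ∀ w : Fin (k + 1) → ℝ, N.det ≠ 0 → ∑ j, w j = 1 →
          (∀ a, ∑ j, w j * ((p j (r a) : ℤ) : ℝ) = O (r a)) →
          ∀ F : Finset (Fin (k + 1)), |N.det| * |θ - ∑ j ∈ F, w j| ≤ 1 := by
        intro w hdet hw0 hw F
        set c : Fin (k + 1) → ℝ := fun j => if j ∈ F then θ - 1 else θ with hc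
        have hcw : ∑ j, c j * w j = θ - ∑ j ∈ F, w j := by
          have e1 : ∀ j, c j * w j = θ * w j - (if j ∈ F then w j else 0) := by
            intro j
            simp only [hc]
            split_ifs <;> ring
          simp_rw [e1]
          rw [Finset.sum_sub_distrib, ← Finset.mul_sum, hw0, mul_one, Finset.sum_ite_mem,
            Finset.univ_inter]
        have hk := det_key (fun b => O (r b)) N hN0 hdet c w hw0
          (fun b => by
            rw [← hw b]
            exact Finset.sum_congr rfl (fun j _ => by rw [hNsucc]))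
        rw [hcw] at hk
        rw [← hk]
        -- compare with a minor
        have hm := hTS (k + 1) (Fin.cons i r) (fun j => Function.update (z j) i (c j)) (by
          intro j
          simp only [hc]
          split_ifs
          · exact_mod_cast hDS2 _ (hzD j)
          · exact_mod_cast hDS1 _ (hzD j))
        have hmat : (Matrix.of fun a b =>
            (fun j => Function.update (z j) i (c j)) b ((Fin.cons i r : Fin (k + 1) → R) a) :
            Matrix (Fin (k + 1)) (Fin (k + 1)) ℝ) =
            Matrix.of fun a j => (Fin.cons 1 (fun b => ε (r b)) : Fin (k + 1) → ℝ) a *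
              (Matrix.of (Fin.cons c (fun b j => O (r b) - N (Fin.succ b) j)) :
                Matrix (Fin (k + 1)) (Fin (k + 1)) ℝ) a j := by
          ext a j
          refine Fin.cases ?_ (fun a => ?_) a
          · simp
          · simp only [Matrix.of_apply, Fin.cons_succ]
            rw [Function.update_of_ne (hri a), hNsucc, hz _ (hzD j), hzp]
        have hprod : |∏ a, (Fin.cons 1 (fun b => ε (r b)) : Fin (k + 1) → ℝ) a| = 1 := by
          rw [Finset.abs_prod]
          apply Finset.prod_eq_one
          intro a _
          refine Fin.cases ?_ (fun a => ?_) a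
          · simp
          · simp only [Fin.cons_succ]
            rcases hε1 (r a) with h | h <;> rw [h] <;> simp
        unfold mn at hm
        rw [hmat, Matrix.det_mul_column, abs_mul, hprod, one_mul] at hm
        exact hm
      constructor
      · by_cases hdet : N.det = 0
        · rw [hNdet] at hdet
          have : (oneMat r p).det = 0 := by exact_mod_cast hdet
          rw [this]; simp
        · have hu : IsUnit N.det := isUnit_iff_ne_zero.2 hdet
          set w := Matrix.mulVec N⁻¹ (Fin.cons 1 (fun b => O (r b)) : Fin (k + 1) → ℝ) with hwdef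
          have hNw : Matrix.mulVec N w = Fin.cons 1 (fun b => O (r b)) := by
            rw [hwdef, Matrix.mulVec_mulVec, Matrix.mul_nonsing_inv N hu, Matrix.one_mulVec]
          have hw0 : ∑ j, w j = 1 := by
            have := congrFun hNw 0
            simpa [Matrix.mulVec, dotProduct, hN0] using this
          have hw : ∀ a, ∑ j, w j * ((p j (r a) : ℤ) : ℝ) = O (r a) := by
            intro a
            have := congrFun hNw a.succ
            simp only [Matrix.mulVec, dotProduct, Fin.cons_succ, hNsucc] at this
            rw [← this]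
            exact Finset.sum_congr rfl (fun j _ => mul_comm _ _)
          have h1 := hineq w hdet hw0 hw Finset.univ
          rw [hw0, hNdet] at h1
          have h2 : |θ - 1| = 1 - θ := by
            rw [abs_sub_comm, abs_of_pos (by linarith)]
          rw [h2] at h1
          have h3 : |(((oneMat r p).det : ℤ) : ℝ)| < 2 := by
            by_contra hcon
            push Not at hcon
            nlinarith
          have h4 : |(oneMat r p).det| < 2 := by exact_mod_cast h3
          omega
      · intro hd w hw0 hw F
        have hdet : N.det ≠ 0 := by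
          rw [hNdet]
          exact_mod_cast hd
        have h1 := hineq w hdet hw0 hw Fᶜ
        have h2 : (1 : ℝ) ≤ |N.det| := by
          rw [hNdet]
          have : 1 ≤ |(oneMat r p).det| := Int.one_le_abs hd
          exact_mod_cast this
        have h3 : |θ - ∑ j ∈ Fᶜ, w j| ≤ 1 := by
          nlinarith [abs_nonneg (θ - ∑ j ∈ Fᶜ, w j)]
        rw [abs_le] at h3
        have h4 : ∑ j ∈ F, w j + ∑ j ∈ Fᶜ, w j = 1 := by
          rw [Finset.sum_add_sum_compl, hw0]
        linarith [h3.1]

end Pool.Agent.W315.SHKey
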